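import Pool.Agent.H97R2.LPB.Props

/-!
# The certificate on `[0, 2]`

`Phi + 2 Ux` on `[0, 2]`: the concave part `2 Pc 1 v - Pc 5 v - π v` is bounded by its tangents at the
points `(2 j + 1) / 8`, and `2 Ux` by the interval certificate on the cells `[k / 32, (k + 1) / 32]`.
-/

open Polynomial Filter Topology MeasureTheory Pool.Agent.H337R2 Pool.Agent.LP

namespace Pool.Agent.LPB

namespace C1

/-! ### Bounds for arctan -/

theorem arctan_le5 {t : ℝ} (ht : 0 ≤ t) : Real.arctan t ≤ t - t ^ 3 / 3 + t ^ 5 / 5 := by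
  have hd : ∀ x : ℝ, HasDerivAt (fun x : ℝ => (x - x ^ 3 / 3 + x ^ 5 / 5) - Real.arctan x)
      ((1 - x ^ 2 + x ^ 4) - 1 / (1 + x ^ 2)) x := by
    intro x
    have h3 : HasDerivAt (fun x : ℝ => x ^ 3 / 3) (x ^ 2) x := by
      have := (hasDerivAt_pow 3 x).div_const 3
      refine this.congr_deriv ?_
      norm_num
    have h5 : HasDerivAt (fun x : ℝ => x ^ 5 / 5) (x ^ 4) x := by
      have := (hasDerivAt_pow 5 x).div_const 5
      refine this.congr_deriv ?_
      norm_num
    exact (((hasDerivAt_id x).sub h3).add h5).sub (Real.hasDerivAt_arctan x)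
  have hm : MonotoneOn (fun x : ℝ => (x - x ^ 3 / 3 + x ^ 5 / 5) - Real.arctan x) (Set.Ici 0) := by
    apply monotoneOn_of_deriv_nonneg (convex_Ici 0)
    · exact fun x _ => (hd x).continuousAt.continuousWithinAt
    · exact fun x _ => (hd x).differentiableAt.differentiableWithinAt
    · intro x _
      rw [(hd x).deriv]
      have h1 : (0 : ℝ) < 1 + x ^ 2 := by positivity
      have h2 : (1 - x ^ 2 + x ^ 4) - 1 / (1 + x ^ 2) = x ^ 6 / (1 + x ^ 2) := by
        field_simp
        ring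
      rw [h2]
      positivity
  have := hm (Set.mem_Ici.2 le_rfl) (Set.mem_Ici.2 ht) ht
  simp only [Real.arctan_zero] at this
  norm_num at this
  linarith

theorem le_arctan3 {t : ℝ} (ht : 0 ≤ t) : t - t ^ 3 / 3 ≤ Real.arctan t := by
  have hd : ∀ x : ℝ, HasDerivAt (fun x : ℝ => Real.arctan x - (x - x ^ 3 / 3))
      (1 / (1 + x ^ 2) - (1 - x ^ 2)) x := by
    intro x
    have h3 : HasDerivAt (fun x : ℝ => x ^ 3 / 3) (x ^ 2) x := by
      have := (hasDerivAt_pow 3 x).div_const 3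
      refine this.congr_deriv ?_
      norm_num
    exact (Real.hasDerivAt_arctan x).sub ((hasDerivAt_id x).sub h3)
  have hm : MonotoneOn (fun x : ℝ => Real.arctan x - (x - x ^ 3 / 3)) (Set.Ici 0) := by
    apply monotoneOn_of_deriv_nonneg (convex_Ici 0)
    · exact fun x _ => (hd x).continuousAt.continuousWithinAt
    · exact fun x _ => (hd x).differentiableAt.differentiableWithinAt
    · intro x _
      rw [(hd x).deriv]
      have h1 : (0 : ℝ) < 1 + x ^ 2 := by positivity
      have h2 : 1 / (1 + x ^ 2) - (1 - x ^ 2) = x ^ 4 / (1 + x ^ 2) := by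
        field_simp
        ring
      rw [h2]
      positivity
  have := hm (Set.mem_Ici.2 le_rfl) (Set.mem_Ici.2 ht) ht
  simp only [Real.arctan_zero] at this
  norm_num at this
  linarith

theorem arctan_le {t : ℝ} (ht : 0 ≤ t) : Real.arctan t ≤ t := by
  have hd : ∀ x : ℝ, HasDerivAt (fun x : ℝ => x - Real.arctan x) (1 - 1 / (1 + x ^ 2)) x :=
    fun x => (hasDerivAt_id x).sub (Real.hasDerivAt_arctan x)
  have hm : MonotoneOn (fun x : ℝ => x - Real.arctan x) (Set.Ici 0) := by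
    apply monotoneOn_of_deriv_nonneg (convex_Ici 0)
    · exact fun x _ => (hd x).continuousAt.continuousWithinAt
    · exact fun x _ => (hd x).differentiableAt.differentiableWithinAt
    · intro x _
      rw [(hd x).deriv]
      have h1 : (0 : ℝ) < 1 + x ^ 2 := by positivity
      have h2 : 1 - 1 / (1 + x ^ 2) = x ^ 2 / (1 + x ^ 2) := by
        field_simp
        ring
      rw [h2]
      positivity
  have := hm (Set.mem_Ici.2 le_rfl) (Set.mem_Ici.2 ht) ht
  simp only [Real.arctan_zero] at this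
  linarith

/-- reduction to `(m - 1) / (m + 1)` -/
theorem arctan_red {m y : ℝ} (hy : y < 1) (h : m = (1 + y) / (1 - y)) :
    Real.arctan m = Real.pi / 4 + Real.arctan y := by
  have := Real.arctan_add (x := 1) (y := y) (by linarith)
  rw [Real.arctan_one, one_mul] at this
  rw [this, h]

/-! ### The concave part -/

/-- the slope of the tangent -/
noncomputable def D (m : ℝ) : ℝ := 2 * Real.arctan (1 / m) - Real.arctan (5 / m) - Real.pi

theorem D_eq {m : ℝ} (hm : 0 < m) :
    D m = -(2 * Real.arctan m) - Real.pi / 2 + Real.arctan (m / 5) := by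
  unfold D
  have h1 : Real.arctan (1 / m) = Real.pi / 2 - Real.arctan m := by
    rw [one_div]
    exact Real.arctan_inv_of_pos hm
  have h2 : Real.arctan (5 / m) = Real.pi / 2 - Real.arctan (m / 5) := by
    have : (5 / m) = (m / 5)⁻¹ := by rw [inv_div]
    rw [this]
    exact Real.arctan_inv_of_pos (by positivity)
  rw [h1, h2]
  ring

/-- the value of the tangent at `0` -/
noncomputable def L (m : ℝ) : ℝ := Real.log (1 + m ^ 2) - 5 / 2 * Real.log (25 + m ^ 2) + 3

theorem tangent (h : S_shape) {m v : ℝ} (hm : 0 < m) (hm2 : m ≤ 387 / 100) (hv : 0 ≤ v)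
    (hv2 : v ≤ 387 / 100) : 2 * Pc 1 v - Pc 5 v - Real.pi * v ≤ L m + v * D m := by
  obtain ⟨hd, hc, -⟩ := h
  have h1 := hd m hm
  have e : 2 * Pc 1 m - Pc 5 m - Real.pi * m = L m + m * D m := by
    unfold Pc L D
    norm_num
    ring
  have hmm : m ∈ Set.Icc (0 : ℝ) (387 / 100) := ⟨hm.le, hm2⟩
  have hvv : v ∈ Set.Icc (0 : ℝ) (387 / 100) := ⟨hv, hv2⟩
  have key : 2 * Pc 1 v - Pc 5 v - Real.pi * v ≤
      (2 * Pc 1 m - Pc 5 m - Real.pi * m) + (v - m) * D m := by
    rcases lt_trichotomy m v with h2 | h2 | h2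
    · have h3 := hc.slope_le_of_hasDerivAt hmm hvv h2 h1
      rw [slope_def_field, div_le_iff₀ (by linarith)] at h3
      unfold D
      linarith
    · subst h2
      simp
    · have h3 := hc.le_slope_of_hasDerivAt hvv hmm h2 h1
      rw [slope_def_field, le_div_iff₀ (by linarith)] at h3
      unfold D
      linarith
  rw [e] at key
  linarith

/-! ### Numbers -/

/-- the check for `L` -/
def okL (a : ℕ) (B : ℤ) : Bool :=
  decide (2 * lnA (64 + a ^ 2) - 5 * lnA (1600 + a ^ 2) + 18 * lnA 2 + 500000 + 6000000000000 ≤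
    2000000000 * B) && decide (64 + a ^ 2 < 1048576) && decide (1600 + a ^ 2 < 1048576)

theorem L_le {a : ℕ} {B : ℤ} (h : okL a B = true) : L ((a : ℝ) / 8) ≤ (B : ℝ) / 1000 := by
  unfold okL at h
  simp only [Bool.and_eq_true, decide_eq_true_eq] at h
  obtain ⟨⟨h1, h2⟩, h3⟩ := h
  have l1 := lnA_spec (64 + a ^ 2) (by omega) (by norm_num; omega)
  have l2 := lnA_spec (1600 + a ^ 2) (by omega) (by norm_num; omega)
  have l3 := lnA_spec 2 (by norm_num) (by norm_num)
  have e64 : Real.log 64 = 6 * Real.log 2 := by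
    rw [show (64 : ℝ) = 2 ^ 6 by norm_num, Real.log_pow]
    norm_num
  have e1 : Real.log (1 + ((a : ℝ) / 8) ^ 2) = Real.log ((64 + a ^ 2 : ℕ) : ℝ) - 6 * Real.log 2 := by
    rw [← e64, ← Real.log_div (by positivity) (by norm_num)]
    congr 1
    push_cast
    ring
  have e2 : Real.log (25 + ((a : ℝ) / 8) ^ 2) =
      Real.log ((1600 + a ^ 2 : ℕ) : ℝ) - 6 * Real.log 2 := by
    rw [← e64, ← Real.log_div (by positivity) (by norm_num)]
    congr 1
    push_cast
    ring
  unfold L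
  rw [e1, e2]
  rw [abs_le] at l1 l2 l3
  simp only [lnE] at l1 l2 l3
  have h1' : (2 : ℝ) * (lnA (64 + a ^ 2) : ℝ) - 5 * (lnA (1600 + a ^ 2) : ℝ) +
      18 * (lnA 2 : ℝ) + 500000 + 6000000000000 ≤ 2000000000 * (B : ℝ) := by
    exact_mod_cast h1
  have c2 : ((2 : ℕ) : ℝ) = 2 := by norm_num
  rw [c2] at l3
  obtain ⟨-, l1⟩ := l1
  obtain ⟨l2, -⟩ := l2
  obtain ⟨-, l3⟩ := l3
  generalize Real.log ((64 + a ^ 2 : ℕ) : ℝ) = x1 at *
  generalize Real.log ((1600 + a ^ 2 : ℕ) : ℝ) = x2 at *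
  generalize Real.log 2 = x3 at *
  push_cast at l1 l2 l3
  linarith

/-- the values of the tangents at `0`, and their slopes -/
def tb (j : ℕ) : ℤ × ℤ :=
  [(-5033, -1794), (-4929, -2210), (-4756, -2555), (-4554, -2834), (-4352, -3037), (-4167, -3186),
    (-4006, -3294), (-3868, -3372)].getD j (0, 0)

theorem okL_all : ∀ j < 8, okL (2 * j + 1) (tb j).1 = true := by decide +kernel

theorem D_le (j : ℕ) (hj : j < 8) : D ((2 * j + 1 : ℕ) / 8) ≤ ((tb j).2 : ℝ) / 1000 := by
  have hpi := Real.pi_gt_d6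
  rw [D_eq (by positivity)]
  interval_cases j
  · have h1 := le_arctan3 (t := 1 / 8) (by norm_num)
    have h2 := arctan_le5 (t := 1 / 40) (by norm_num)
    norm_num [tb] at h1 h2 ⊢
    linarith
  · have h1 := le_arctan3 (t := 3 / 8) (by norm_num)
    have h2 := arctan_le5 (t := 3 / 40) (by norm_num)
    norm_num [tb] at h1 h2 ⊢
    linarith
  · have h0 := arctan_red (m := 5 / 8) (y := -(3 / 13)) (by norm_num) (by norm_num)
    rw [Real.arctan_neg] at h0
    have h1 := arctan_le (t := 3 / 13) (by norm_num)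
    have h2 := arctan_le5 (t := 1 / 8) (by norm_num)
    norm_num [tb] at h0 h1 h2 ⊢
    linarith
  · have h0 := arctan_red (m := 7 / 8) (y := -(1 / 15)) (by norm_num) (by norm_num)
    rw [Real.arctan_neg] at h0
    have h1 := arctan_le (t := 1 / 15) (by norm_num)
    have h2 := arctan_le5 (t := 7 / 40) (by norm_num)
    norm_num [tb] at h0 h1 h2 ⊢
    linarith
  · have h0 := arctan_red (m := 9 / 8) (y := 1 / 17) (by norm_num) (by norm_num)
    have h1 := le_arctan3 (t := 1 / 17) (by norm_num)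
    have h2 := arctan_le5 (t := 9 / 40) (by norm_num)
    norm_num [tb] at h0 h1 h2 ⊢
    linarith
  · have h0 := arctan_red (m := 11 / 8) (y := 3 / 19) (by norm_num) (by norm_num)
    have h1 := le_arctan3 (t := 3 / 19) (by norm_num)
    have h2 := arctan_le5 (t := 11 / 40) (by norm_num)
    norm_num [tb] at h0 h1 h2 ⊢
    linarith
  · have h0 := arctan_red (m := 13 / 8) (y := 5 / 21) (by norm_num) (by norm_num)
    have h1 := le_arctan3 (t := 5 / 21) (by norm_num)
    have h2 := arctan_le5 (t := 13 / 40) (by norm_num)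
    norm_num [tb] at h0 h1 h2 ⊢
    linarith
  · have h0 := arctan_red (m := 15 / 8) (y := 7 / 23) (by norm_num) (by norm_num)
    have h1 := le_arctan3 (t := 7 / 23) (by norm_num)
    have h2 := arctan_le5 (t := 3 / 8) (by norm_num)
    norm_num [tb] at h0 h1 h2 ⊢
    linarith

/-! ### The potential -/

/-- the list for `2 Ux` -/
def lU : List (ℤ × ℤ) := [(192, -30), (-192, 30), (160, -96), (-160, 96)]

theorem EF_lU (v : ℝ) : EF 165 32 lU v = 2 * Ux v := by
  have e1 : v - ((-30 : ℤ) : ℝ) / ((32 : ℕ) : ℝ) = v + 15 / 16 := by push_cast; ring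
  have e2 : v - ((30 : ℤ) : ℝ) / ((32 : ℕ) : ℝ) = v - 15 / 16 := by push_cast; ring
  have e3 : v - ((-96 : ℤ) : ℝ) / ((32 : ℕ) : ℝ) = v + 3 := by push_cast; ring
  have e4 : v - ((96 : ℤ) : ℝ) / ((32 : ℕ) : ℝ) = v - 3 := by push_cast; ring
  unfold lU Ux
  simp only [EF_cons, EF_nil, e1, e2, e3, e4]
  push_cast
  ring

/-- the bound for the cell `[k / 32, (k + 1) / 32]` -/
def Ak (k : ℕ) : ℤ := (-212800 - 32 * (tb (k / 8)).1 - k * (tb (k / 8)).2) * 165000000000

theorem cells : ∀ k < 64, cellOK 32 lU (Ak k) k (k + 1) = true := by decide +kernel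

theorem tb_neg : ∀ j < 8, (tb j).2 ≤ 0 := by decide

end C1

open C1 in
theorem V1_cert1 (h : S_shape) : S_cert1 := by
  intro v h0 h2
  obtain ⟨k, hk, hk1, hk2⟩ : ∃ k : ℕ, k < 64 ∧ (k : ℝ) / 32 ≤ v ∧ v ≤ ((k : ℝ) + 1) / 32 := by
    rcases lt_or_ge v 2 with h3 | h3
    · refine ⟨⌊v * 32⌋₊, ?_, ?_, ?_⟩
      · rw [Nat.floor_lt (by positivity)]
        push_cast
        linarith
      · have := Nat.floor_le (show 0 ≤ v * 32 by positivity)
        linarith
      · have := (Nat.lt_floor_add_one (v * 32)).le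
        linarith
    · refine ⟨63, by norm_num, ?_, ?_⟩ <;> push_cast <;> linarith
  have hj : k / 8 < 8 := by omega
  have hU : EF 165 32 lU (v * 32 / (32 : ℕ)) ≤
      (Ak k : ℝ) / (10 ^ 12 * (165 : ℕ) * (32 : ℕ)) := by
    refine cellOK_spec (by norm_num) (by norm_num) (by norm_num) (cells k hk) _ ?_ _ ?_ ?_
    · rw [div_mul_cancel₀ _ (by norm_num)]
    · push_cast
      linarith
    · push_cast
      linarith
  have e32 : v * 32 / ((32 : ℕ) : ℝ) = v := by push_cast; ring
  rw [e32, EF_lU] at hU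
  have hT := tangent h (m := ((2 * (k / 8) + 1 : ℕ) : ℝ) / 8) (v := v) (by positivity) (by
    have : ((2 * (k / 8) + 1 : ℕ) : ℝ) ≤ 15 := by exact_mod_cast (by omega)
    linarith) h0 (by linarith)
  have hL := L_le (okL_all (k / 8) hj)
  have hD := D_le (k / 8) hj
  have hs : ((tb (k / 8)).2 : ℝ) ≤ 0 := by exact_mod_cast tb_neg (k / 8) hj
  have hA : (Ak k : ℝ) =
      (-212800 - 32 * ((tb (k / 8)).1 : ℝ) - k * ((tb (k / 8)).2 : ℝ)) * 165000000000 := by
    unfold Ak
    push_cast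
    ring
  rw [hA] at hU
  have e5 : (-212800 - 32 * ((tb (k / 8)).1 : ℝ) - k * ((tb (k / 8)).2 : ℝ)) * 165000000000 /
      (10 ^ 12 * ((165 : ℕ) : ℝ) * ((32 : ℕ) : ℝ)) =
      -(665 / 100) - ((tb (k / 8)).1 : ℝ) / 1000 - (k : ℝ) / 32 * (((tb (k / 8)).2 : ℝ) / 1000) := by
    push_cast
    ring
  rw [e5] at hU
  have hDv : v * D (((2 * (k / 8) + 1 : ℕ) : ℝ) / 8) ≤ (k : ℝ) / 32 * (((tb (k / 8)).2 : ℝ) / 1000) := by
    refine (mul_le_mul_of_nonneg_left hD h0).trans ?_
    exact mul_le_mul_of_nonpos_right hk1 (by linarith)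
  have hPhi : Phi v = 2 * Pc 1 v - Pc 5 v - Real.pi * v := by
    unfold Phi
    rw [abs_of_nonneg h0]
  rw [hPhi]
  linarith

end Pool.Agent.LPB
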